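import Mathlib

set_option autoImplicit false

/-!
# Wiener polynomials of rooted trees joined by an edge
-/

namespace Pool.Agent.Q281.Wiener

open Polynomial

open Classical in
/-- The Wiener polynomial: half of the sum of `x ^ d(u, v)` over the ordered pairs of distinct
vertices, that is, the sum over the unordered pairs. -/
noncomputable def wiener {V : Type} [Fintype V] (G : SimpleGraph V) : ℝ[X] :=
  C (1 / 2) * ∑ p ∈ (Finset.univ : Finset V).offDiag, X ^ G.dist p.1 p.2

/-- distance generating function from a vertex -/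
noncomputable def prof {V : Type} [Fintype V] (G : SimpleGraph V) (r : V) : ℝ[X] :=
  ∑ v, X ^ G.dist r v

theorem wiener_eq {V : Type} [Fintype V] (G : SimpleGraph V) :
    wiener G = C (1 / 2) * ((∑ x, ∑ y, X ^ G.dist x y) - (Fintype.card V : ℝ[X])) := by
  classical
  rw [wiener]
  congr 1
  rw [eq_sub_iff_add_eq, ← Finset.sum_product', Finset.univ_product_univ,
    ← Finset.univ_product_univ, ← Finset.diag_union_offDiag,
    Finset.sum_union (Finset.disjoint_diag_offDiag _), add_comm]
  congr 1
  rw [Finset.sum_diag]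
  simp

/-- two graphs joined by an edge between `g` and `h` -/
def graft {V U : Type} (G : SimpleGraph V) (H : SimpleGraph U) (g : V) (h : U) :
    SimpleGraph (V ⊕ U) where
  Adj x y := match x, y with
    | Sum.inl a, Sum.inl b => G.Adj a b
    | Sum.inr a, Sum.inr b => H.Adj a b
    | Sum.inl a, Sum.inr b => a = g ∧ b = h
    | Sum.inr b, Sum.inl a => a = g ∧ b = h
  symm := ⟨by
    rintro (a | a) (b | b) hab
    · exact (show G.Adj a b from hab).symm
    · exact hab
    · exact hab
    · exact (show H.Adj a b from hab).symm⟩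
  loopless := ⟨by
    rintro (a | a) hab
    · exact G.irrefl hab
    · exact H.irrefl hab⟩

variable {V U : Type} {G : SimpleGraph V} {H : SimpleGraph U} {g : V} {h : U}

/-- a function that grows by at most one along edges bounds the length of walks -/
theorem potential {W : Type} {K : SimpleGraph W} (φ : W → ℕ)
    (hφ : ∀ x y, K.Adj x y → φ y ≤ φ x + 1) {x y : W} (p : K.Walk x y) : φ y ≤ φ x + p.length := by
  induction p with
  | nil => simp
  | cons hadj p ih =>
    rw [SimpleGraph.Walk.length_cons]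
    have := hφ _ _ hadj
    omega

/-- inclusion of the left part -/
def homL : G →g graft G H g h := ⟨Sum.inl, fun hab => hab⟩

/-- inclusion of the right part -/
def homR : H →g graft G H g h := ⟨Sum.inr, fun hab => hab⟩

theorem walk_LL (hG : G.Connected) (a b : V) :
    ∃ p : (graft G H g h).Walk (Sum.inl a) (Sum.inl b), p.length = G.dist a b := by
  obtain ⟨p, hp⟩ := hG.exists_walk_length_eq_dist a b
  exact ⟨p.map homL, (SimpleGraph.Walk.length_map _ _).trans hp⟩

theorem walk_RR (hH : H.Connected) (a b : U) :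
    ∃ p : (graft G H g h).Walk (Sum.inr a) (Sum.inr b), p.length = H.dist a b := by
  obtain ⟨p, hp⟩ := hH.exists_walk_length_eq_dist a b
  exact ⟨p.map homR, (SimpleGraph.Walk.length_map _ _).trans hp⟩

theorem walk_LR (hG : G.Connected) (hH : H.Connected) (a : V) (b : U) :
    ∃ p : (graft G H g h).Walk (Sum.inl a) (Sum.inr b),
      p.length = G.dist a g + 1 + H.dist h b := by
  obtain ⟨p, hp⟩ := walk_LL (G := G) (H := H) (g := g) (h := h) hG a g
  obtain ⟨q, hq⟩ := walk_RR (G := G) (H := H) (g := g) (h := h) hH h b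
  have hadj : (graft G H g h).Adj (Sum.inl g) (Sum.inr h) := ⟨rfl, rfl⟩
  refine ⟨p.append (SimpleGraph.Walk.cons hadj q), ?_⟩
  rw [SimpleGraph.Walk.length_append, SimpleGraph.Walk.length_cons, hp, hq]
  ring

theorem graft_connected (hG : G.Connected) (hH : H.Connected) : (graft G H g h).Connected := by
  have : Nonempty (V ⊕ U) := ⟨Sum.inl g⟩
  refine ⟨?_⟩
  rintro (a | a) (b | b)
  · obtain ⟨p, _⟩ := walk_LL (G := G) (H := H) (g := g) (h := h) hG a b
    exact ⟨p⟩
  · obtain ⟨p, _⟩ := walk_LR (G := G) (H := H) (g := g) (h := h) hG hH a b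
    exact ⟨p⟩
  · obtain ⟨p, _⟩ := walk_LR (G := G) (H := H) (g := g) (h := h) hG hH b a
    exact ⟨p.reverse⟩
  · obtain ⟨p, _⟩ := walk_RR (G := G) (H := H) (g := g) (h := h) hH a b
    exact ⟨p⟩

theorem dist_ge_left (hG : G.Connected) (hH : H.Connected) (a : V) (y : V ⊕ U) :
    Sum.elim (fun b => G.dist a b) (fun b => G.dist a g + 1 + H.dist h b) y ≤
      (graft G H g h).dist (Sum.inl a) y := by
  obtain ⟨p, hp⟩ := (graft_connected (g := g) (h := h) hG hH).exists_walk_length_eq_dist
    (Sum.inl a) y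
  have h1 := potential (K := graft G H g h)
    (Sum.elim (fun b => G.dist a b) (fun b => G.dist a g + 1 + H.dist h b)) (by
      rintro (b | b) (c | c) hbc
      · have h2 : G.dist b c = 1 := SimpleGraph.dist_eq_one_iff_adj.2 hbc
        have h3 := hG.dist_triangle (u := a) (v := b) (w := c)
        simp only [Sum.elim_inl]
        omega
      · obtain ⟨rfl, rfl⟩ := hbc
        simp
      · obtain ⟨rfl, rfl⟩ := hbc
        simp
        omega
      · have h2 : H.dist b c = 1 := SimpleGraph.dist_eq_one_iff_adj.2 hbc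
        have h3 := hH.dist_triangle (u := h) (v := b) (w := c)
        simp only [Sum.elim_inr]
        omega) p
  simp only [Sum.elim_inl, SimpleGraph.dist_self, zero_add] at h1
  rwa [hp] at h1

theorem dist_ge_right (hG : G.Connected) (hH : H.Connected) (a : U) (y : V ⊕ U) :
    Sum.elim (fun b => H.dist a h + 1 + G.dist g b) (fun b => H.dist a b) y ≤
      (graft G H g h).dist (Sum.inr a) y := by
  obtain ⟨p, hp⟩ := (graft_connected (g := g) (h := h) hG hH).exists_walk_length_eq_dist
    (Sum.inr a) y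
  have h1 := potential (K := graft G H g h)
    (Sum.elim (fun b => H.dist a h + 1 + G.dist g b) (fun b => H.dist a b)) (by
      rintro (b | b) (c | c) hbc
      · have h2 : G.dist b c = 1 := SimpleGraph.dist_eq_one_iff_adj.2 hbc
        have h3 := hG.dist_triangle (u := g) (v := b) (w := c)
        simp only [Sum.elim_inl]
        omega
      · obtain ⟨rfl, rfl⟩ := hbc
        simp
        omega
      · obtain ⟨rfl, rfl⟩ := hbc
        simp
      · have h2 : H.dist b c = 1 := SimpleGraph.dist_eq_one_iff_adj.2 hbc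
        have h3 := hH.dist_triangle (u := a) (v := b) (w := c)
        simp only [Sum.elim_inr]
        omega) p
  simp only [Sum.elim_inr, SimpleGraph.dist_self, zero_add] at h1
  rwa [hp] at h1

theorem dist_LL (hG : G.Connected) (hH : H.Connected) (a b : V) :
    (graft G H g h).dist (Sum.inl a) (Sum.inl b) = G.dist a b := by
  obtain ⟨p, hp⟩ := walk_LL (G := G) (H := H) (g := g) (h := h) hG a b
  exact le_antisymm (hp ▸ SimpleGraph.dist_le p) (dist_ge_left hG hH a (Sum.inl b))

theorem dist_LR (hG : G.Connected) (hH : H.Connected) (a : V) (b : U) :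
    (graft G H g h).dist (Sum.inl a) (Sum.inr b) = G.dist a g + 1 + H.dist h b := by
  obtain ⟨p, hp⟩ := walk_LR (G := G) (H := H) (g := g) (h := h) hG hH a b
  exact le_antisymm (hp ▸ SimpleGraph.dist_le p) (dist_ge_left hG hH a (Sum.inr b))

theorem dist_RR (hG : G.Connected) (hH : H.Connected) (a b : U) :
    (graft G H g h).dist (Sum.inr a) (Sum.inr b) = H.dist a b := by
  obtain ⟨p, hp⟩ := walk_RR (G := G) (H := H) (g := g) (h := h) hH a b
  exact le_antisymm (hp ▸ SimpleGraph.dist_le p) (dist_ge_right hG hH a (Sum.inr b))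

theorem dist_RL (hG : G.Connected) (hH : H.Connected) (a : V) (b : U) :
    (graft G H g h).dist (Sum.inr b) (Sum.inl a) = G.dist a g + 1 + H.dist h b := by
  rw [SimpleGraph.dist_comm, dist_LR hG hH]

theorem prof_graft [Fintype V] [Fintype U] (hG : G.Connected) (hH : H.Connected) :
    prof (graft G H g h) (Sum.inl g) = prof G g + X * prof H h := by
  rw [prof, Fintype.sum_sum_type, prof, prof, Finset.mul_sum]
  congr 1
  · exact Finset.sum_congr rfl fun v _ => by rw [dist_LL hG hH]
  · refine Finset.sum_congr rfl fun v _ => ?_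
    rw [dist_LR hG hH, SimpleGraph.dist_self, zero_add, pow_add, pow_one]

theorem wiener_graft [Fintype V] [Fintype U] (hG : G.Connected) (hH : H.Connected) :
    wiener (graft G H g h) = wiener G + wiener H + X * prof G g * prof H h := by
  rw [wiener_eq, wiener_eq, wiener_eq, Fintype.sum_sum_type]
  simp only [Fintype.sum_sum_type, dist_LL hG hH, dist_LR hG hH, dist_RR hG hH, dist_RL hG hH,
    Finset.sum_add_distrib, Fintype.card_sum, Nat.cast_add]
  have h1 : ∑ x : V, ∑ y : U, (X : ℝ[X]) ^ (G.dist x g + 1 + H.dist h y) =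
      X * prof G g * prof H h := by
    rw [prof, prof, mul_assoc, Finset.sum_mul_sum, Finset.mul_sum]
    refine Finset.sum_congr rfl fun x _ => ?_
    rw [Finset.mul_sum]
    refine Finset.sum_congr rfl fun y _ => ?_
    rw [pow_add, pow_add, pow_one, SimpleGraph.dist_comm (u := g)]
    ring
  have h2 : ∑ y : U, ∑ x : V, (X : ℝ[X]) ^ (G.dist x g + 1 + H.dist h y) =
      X * prof G g * prof H h := by
    rw [Finset.sum_comm, h1]
  rw [h1, h2]
  have h3 : (C (1 / 2) : ℝ[X]) * 2 = 1 := by
    rw [show (2 : ℝ[X]) = C 2 from rfl, ← C_mul]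
    norm_num
  linear_combination (X * prof G g * prof H h) * h3

theorem graft_isTree [Finite V] [Finite U] (hG : G.IsTree) (hH : H.IsTree) :
    (graft G H g h).IsTree := by
  classical
  have := Fintype.ofFinite V
  have := Fintype.ofFinite U
  have hcount : ∀ {W : Type} [Fintype W] (K : SimpleGraph W),
      ∑ x : W, ∑ y : W, (if K.Adj x y then 1 else 0 : ℕ) = 2 * Nat.card K.edgeSet := by
    intro W _ K
    have h1 := K.sum_degrees_eq_twice_card_edges
    rw [Nat.card_eq_fintype_card, ← SimpleGraph.edgeFinset_card, ← h1]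
    refine Finset.sum_congr rfl fun x _ => ?_
    rw [← K.card_neighborFinset_eq_degree, K.neighborFinset_eq_filter, Finset.card_filter]
  rw [SimpleGraph.isTree_iff_connected_and_card] at hG hH ⊢
  refine ⟨graft_connected hG.1 hH.1, ?_⟩
  have e1 := hcount (graft G H g h)
  have e2 := hcount G
  have e3 := hcount H
  rw [Fintype.sum_sum_type] at e1
  simp only [Fintype.sum_sum_type, Finset.sum_add_distrib] at e1
  have f1 : ∀ a b, (graft G H g h).Adj (Sum.inl a) (Sum.inl b) ↔ G.Adj a b := fun _ _ => Iff.rfl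
  have f2 : ∀ a b, (graft G H g h).Adj (Sum.inr a) (Sum.inr b) ↔ H.Adj a b := fun _ _ => Iff.rfl
  have f3 : ∀ a b, (graft G H g h).Adj (Sum.inl a) (Sum.inr b) ↔ a = g ∧ b = h :=
    fun _ _ => Iff.rfl
  have f4 : ∀ a b, (graft G H g h).Adj (Sum.inr b) (Sum.inl a) ↔ a = g ∧ b = h :=
    fun _ _ => Iff.rfl
  simp only [f1, f2, f3, f4] at e1
  rw [e2, e3] at e1
  have g1 : ∑ x : V, ∑ y : U, (if x = g ∧ y = h then 1 else 0 : ℕ) = 1 := by
    rw [Finset.sum_eq_single g (fun b _ hb => by simp [hb]) (by simp),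
      Finset.sum_eq_single h (fun b _ hb => by simp [hb]) (by simp)]
    simp
  have g2 : ∑ y : U, ∑ x : V, (if x = g ∧ y = h then 1 else 0 : ℕ) = 1 := by
    rw [Finset.sum_comm, g1]
  rw [g1, g2] at e1
  have e4 : Nat.card (V ⊕ U) = Nat.card V + Nat.card U := by
    simp [Nat.card_eq_fintype_card]
  rw [e4, ← hG.2, ← hH.2]
  omega

/-- `p` and `w` are the root profile and the Wiener polynomial of a rooted tree, with degrees at
most `d` and `2 d` -/
def Real (d : ℕ) (p w : ℝ[X]) : Prop :=
  (∃ (V : Type) (_ : Fintype V) (G : SimpleGraph V) (r : V), G.IsTree ∧ prof G r = p ∧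
    wiener G = w) ∧ p.natDegree ≤ d ∧ w.natDegree ≤ 2 * d

theorem real_one (d : ℕ) : Real d 1 0 := by
  refine ⟨⟨Unit, inferInstance, ⊥, (), ?_, ?_, ?_⟩, by simp, by simp⟩
  · rw [SimpleGraph.isTree_iff_connected_and_card]
    refine ⟨⟨fun a b => ?_⟩, by simp⟩
    rw [Subsingleton.elim a b]
  · simp [prof]
  · rw [wiener_eq]
    simp

theorem real_graft {d e : ℕ} {p q w v : ℝ[X]} (h1 : Real d p w) (h2 : Real e q v)
    (hed : e + 1 ≤ d) : Real d (p + X * q) (w + v + X * p * q) := by
  obtain ⟨⟨V, _, G, g, hG, hp, hw⟩, hp1, hw1⟩ := h1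
  obtain ⟨⟨U, _, H, h, hH, hq, hv⟩, hq1, hv1⟩ := h2
  refine ⟨⟨V ⊕ U, inferInstance, graft G H g h, Sum.inl g, graft_isTree hG hH, ?_, ?_⟩, ?_, ?_⟩
  · rw [prof_graft hG.1 hH.1, hp, hq]
  · rw [wiener_graft hG.1 hH.1, hp, hq, hw, hv]
  · refine (natDegree_add_le _ _).trans (max_le hp1 ?_)
    refine natDegree_mul_le.trans ?_
    rw [natDegree_X]
    omega
  · refine (natDegree_add_le _ _).trans (max_le ((natDegree_add_le _ _).trans
      (max_le hw1 (by omega))) ?_)
    refine natDegree_mul_le.trans ?_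
    have h3 : (X * p : ℝ[X]).natDegree ≤ 1 + p.natDegree :=
      natDegree_mul_le.trans (by rw [natDegree_X])
    omega

/-- attaching `m` copies of a branch -/
theorem real_copies {d e : ℕ} {p q w v : ℝ[X]} (h1 : Real d p w) (h2 : Real e q v)
    (hed : e + 1 ≤ d) (m : ℕ) : Real d (p + C (m : ℝ) * X * q)
      (w + C (m : ℝ) * v + C (m : ℝ) * X * p * q +
        C ((m : ℝ) * (m - 1) / 2) * X ^ 2 * q ^ 2) := by
  induction m with
  | zero => simpa using h1
  | succ m ih =>
    have h3 := real_graft ih h2 hed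
    have e1 : p + C (m : ℝ) * X * q + X * q = p + C ((m + 1 : ℕ) : ℝ) * X * q := by
      push_cast
      rw [C_add, C_1]
      ring
    have e2 : w + C (m : ℝ) * v + C (m : ℝ) * X * p * q +
        C ((m : ℝ) * (m - 1) / 2) * X ^ 2 * q ^ 2 + v + X * (p + C (m : ℝ) * X * q) * q =
        w + C ((m + 1 : ℕ) : ℝ) * v + C ((m + 1 : ℕ) : ℝ) * X * p * q +
        C (((m + 1 : ℕ) : ℝ) * ((m + 1 : ℕ) - 1) / 2) * X ^ 2 * q ^ 2 := by
      have e3 : C (((m + 1 : ℕ) : ℝ) * ((m + 1 : ℕ) - 1) / 2) =
          C ((m : ℝ) * (m - 1) / 2) + C (m : ℝ) := by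
        rw [← C_add]
        congr 1
        push_cast
        ring
      rw [e3]
      push_cast
      rw [C_add, C_1]
      ring
    rw [e1, e2] at h3
    exact h3

end Pool.Agent.Q281.Wiener
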